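import Pool.Agent.X306.SS.A

set_option autoImplicit false

open MeasureTheory ProbabilityTheory Filter Topology
open scoped ENNReal

namespace Pool.Agent.X306.SS

open Pool.Agent.X19.SS

/-- `gK` from the standard Gaussian of the Euclidean space. -/
theorem gK_eq (K : Type) [RCLike K] [MeasurableSpace K] [BorelSpace K] (ι : Type) [Fintype ι] :
    gK K ι = (stdGaussian (EuclideanSpace K ι)).map WithLp.ofLp := by
  rw [← t_B1 K ι, Measure.map_map (by fun_prop) (by fun_prop)]
  have : (WithLp.ofLp ∘ WithLp.toLp 2 : (ι → K) → (ι → K)) = id := rfl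
  rw [this, Measure.map_id]

theorem t_B2 : S_B2 := by
  intro K _ _ _ ι κ _ _ U
  have hU : Measurable (fun x : EuclideanSpace K ι => U x) := U.continuous.measurable
  refine ⟨by fun_prop, ?_⟩
  have h1 : (stdGaussian (EuclideanSpace K ι)).map U = stdGaussian (EuclideanSpace K κ) := by
    have := stdGaussian_map (E := EuclideanSpace K ι) (F := EuclideanSpace K κ)
      { toLinearEquiv := U.toLinearEquiv.restrictScalars ℝ, norm_map' := U.norm_map }
    exact this
  rw [gK_eq K κ, ← h1, ← t_B1 K ι, Measure.map_map hU (by fun_prop), Measure.map_map (by fun_prop) (by fun_prop)]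
  rfl

theorem t_B3 : S_B3 := by
  intro K _ _ _ ι _ w
  have hnw : ∀ z : EuclideanSpace K ι, ‖z‖ₑ ^ 2 = nsq z.ofLp := by
    intro z
    unfold nsq
    have h3 : ∀ a : K, ‖a‖ₑ ^ 2 = ENNReal.ofReal (‖a‖ ^ 2) := by
      intro a; rw [ENNReal.ofReal_pow (norm_nonneg a), ofReal_norm_eq_enorm]
    have h4 : ‖z‖ₑ ^ 2 = ENNReal.ofReal (‖z‖ ^ 2) := by
      rw [ENNReal.ofReal_pow (norm_nonneg z), ofReal_norm_eq_enorm]
    rw [h4, EuclideanSpace.norm_sq_eq, ENNReal.ofReal_sum_of_nonneg (fun _ _ => by positivity)]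
    exact Finset.sum_congr rfl fun i _ => (h3 _).symm
  by_cases hw : w = 0
  · subst hw
    simp [nsq]
  set z : EuclideanSpace K ι := WithLp.toLp 2 w with hz
  have hz0 : z ≠ 0 := by
    intro h
    apply hw
    have := congrArg WithLp.ofLp h
    simpa [hz] using this
  have hzn : 0 < ‖z‖ := norm_pos_iff.2 hz0
  have key := t_A1 (EuclideanSpace K ι) K
    (fun x => ((‖z‖⁻¹ : ℝ) : K) * ∑ i, star (w i) * x i)
    (fun t => WithLp.toLp 2 (fun i => ((‖z‖⁻¹ : ℝ) : K) * (t * w i))) (by fun_prop)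
    (by
      intro x t
      rw [PiLp.inner_apply]
      simp only [real_inner_eq_re_inner K, RCLike.inner_apply]
      rw [← map_sum]
      congr 1
      rw [map_mul, map_sum, Finset.mul_sum, Finset.mul_sum]
      refine Finset.sum_congr rfl fun i _ => ?_
      simp only [map_mul, RCLike.conj_ofReal, RCLike.star_def, RCLike.conj_conj]
      ring)
    (by
      intro t
      have h1 : ‖(WithLp.toLp 2 (fun i => ((‖z‖⁻¹ : ℝ) : K) * (t * w i)) : EuclideanSpace K ι)‖ =
          ‖((((‖z‖⁻¹ : ℝ) : K) * t) • z : EuclideanSpace K ι)‖ := by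
        congr 1
        ext i
        simp [hz, mul_assoc]
      rw [h1, norm_smul, norm_mul, RCLike.norm_ofReal, abs_of_pos (inv_pos.2 hzn)]
      field_simp)
  have h2 := t_A2 K
  rw [← key, lintegral_map (by fun_prop) (by fun_prop)] at h2
  rw [gK_eq, lintegral_map (by fun_prop) (by fun_prop)]
  have h5 : ∀ x : EuclideanSpace K ι, ‖∑ i, star (w i) * x.ofLp i‖ₑ ^ 2 =
      ‖z‖ₑ ^ 2 * ‖((‖z‖⁻¹ : ℝ) : K) * ∑ i, star (w i) * x.ofLp i‖ₑ ^ 2 := by
    intro x
    rw [enorm_mul, mul_pow, ← mul_assoc, ← mul_pow]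
    have h6 : ‖z‖ₑ * ‖((‖z‖⁻¹ : ℝ) : K)‖ₑ = 1 := by
      rw [← ofReal_norm_eq_enorm, ← ofReal_norm_eq_enorm, RCLike.norm_ofReal, abs_of_pos (inv_pos.2 hzn),
        ← ENNReal.ofReal_mul hzn.le, mul_inv_cancel₀ hzn.ne', ENNReal.ofReal_one]
    rw [h6]; simp
  simp_rw [h5]
  rw [lintegral_const_mul _ (by fun_prop), h2, hnw z, mul_comm]

end Pool.Agent.X306.SS
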