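import Pool.Agent.X19.SS.Stm

set_option autoImplicit false

open MeasureTheory ProbabilityTheory Filter Topology
open scoped ENNReal

namespace Pool.Agent.X306.SS

open Pool.Agent.X19.SS

theorem t_A1 : S_A1 := by
  intro E F _ _ _ _ _ _ _ _ _ _ L J hL h hJ
  haveI : IsProbabilityMeasure ((stdGaussian E).map L) :=
    Measure.isProbabilityMeasure_map hL.aemeasurable
  apply Measure.ext_of_charFun
  ext t
  rw [charFun_apply, integral_map hL.aemeasurable (by fun_prop)]
  simp_rw [h]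
  rw [← charFun_apply, charFun_stdGaussian, charFun_stdGaussian, hJ]

theorem second_real : ∫⁻ y : ℝ, ‖y‖ₑ ^ 2 ∂(gaussianReal 0 1) = 1 := by
  have h1 : evariance id (gaussianReal 0 1) = 1 := by
    rw [← (IsGaussian.memLp_two_id (μ := gaussianReal 0 1)).ofReal_variance_eq, variance_id_gaussianReal]
    simp
  rw [← h1, evariance]
  simp [integral_id_gaussianReal]

theorem t_A2 : S_A2 := by
  intro E _ _ _ _ _
  have hmeas : Measurable (fun x : Fin (Module.finrank ℝ E) → ℝ => ∑ i, x i • stdOrthonormalBasis ℝ E i) := by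
    fun_prop
  rw [stdGaussian, lintegral_map (by fun_prop) hmeas]
  have h1 : ∀ x : Fin (Module.finrank ℝ E) → ℝ,
      ‖∑ i, x i • stdOrthonormalBasis ℝ E i‖ₑ ^ 2 = ∑ i, ‖x i‖ₑ ^ 2 := by
    intro x
    have h2 : ‖∑ i, x i • stdOrthonormalBasis ℝ E i‖ ^ 2 = ∑ i, ‖x i‖ ^ 2 := by
      rw [← (stdOrthonormalBasis ℝ E).sum_sq_norm_inner_right]
      refine Finset.sum_congr rfl fun i _ => ?_
      rw [Orthonormal.inner_right_fintype (stdOrthonormalBasis ℝ E).orthonormal]
    have h3 : ∀ a : E, ‖a‖ₑ ^ 2 = ENNReal.ofReal (‖a‖ ^ 2) := by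
      intro a; rw [ENNReal.ofReal_pow (norm_nonneg a), ofReal_norm_eq_enorm]
    have h4 : ∀ a : ℝ, ‖a‖ₑ ^ 2 = ENNReal.ofReal (‖a‖ ^ 2) := by
      intro a; rw [ENNReal.ofReal_pow (norm_nonneg a), ofReal_norm_eq_enorm]
    rw [h3, h2, ENNReal.ofReal_sum_of_nonneg (fun _ _ => by positivity)]
    exact Finset.sum_congr rfl fun i _ => (h4 _).symm
  simp_rw [h1]
  rw [lintegral_finsetSum _ (fun i _ => by fun_prop)]
  have h5 : ∀ i : Fin (Module.finrank ℝ E),
      ∫⁻ x : Fin (Module.finrank ℝ E) → ℝ, ‖x i‖ₑ ^ 2 ∂(Measure.pi fun _ => gaussianReal 0 1) = 1 := by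
    intro i
    rw [← second_real]
    have hmp := measurePreserving_eval (fun _ : Fin (Module.finrank ℝ E) => gaussianReal 0 1) i
    have := hmp.lintegral_comp (f := fun y : ℝ => ‖y‖ₑ ^ 2) (by fun_prop)
    exact this
  simp_rw [h5]
  simp

section K

variable (K : Type) [RCLike K] [MeasurableSpace K] [BorelSpace K]

theorem t_B1 : S_B1 := by
  intro K _ _ _ ι _
  haveI : IsProbabilityMeasure (gK K ι) := by unfold gK; infer_instance
  haveI : IsProbabilityMeasure ((gK K ι).map (WithLp.toLp 2)) :=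
    Measure.isProbabilityMeasure_map (by fun_prop)
  apply Measure.ext_of_charFun (E := EuclideanSpace K ι)
  ext t
  rw [gK, charFun_pi]
  simp_rw [charFun_stdGaussian]
  rw [← Complex.exp_sum]
  congr 1
  rw [← Complex.ofReal_pow, EuclideanSpace.norm_sq_eq]
  push_cast
  rw [← Finset.sum_neg_distrib, Finset.sum_div]

end K

end Pool.Agent.X306.SS
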